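import Pool.Agent.NH85.IP.Win

/-!
# Every integer is close to a sum of a bounded number of iterated primes
-/

set_option autoImplicit false

open Finset Filter Topology

namespace Pool.Agent.NH85.IP

open Pool.Agent.TH665.GP (PI_prime density ev_pow ev_log_ge)
open Pool.Agent.H197R2.PG (PI)
open Pool.Agent.W851.Had (cnt SumH schn)

/-- the set of the indices, with `0` and `1` added -/
def BB (a J i : ℕ) : Prop := i = 0 ∨ i = 1 ∨ ∃ q, PI a q ∧ q / J = i

lemma dens (a : ℕ) : ∃ e : ℕ, 1 ≤ e ∧ ∃ δ : ℝ, 0 < δ ∧ δ ≤ 1 ∧ ∃ x1 : ℕ, ∀ N : ℕ, x1 ≤ N → ∀ J : ℕ,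
    J = ⌈Real.log N ^ e⌉₊ → 1 ≤ J ∧ ∀ t : ℕ, t + 1 ≤ N / J → δ * t ≤ cnt (BB a J) t := by
  classical
  obtain ⟨e, he, c, hc, x0, hw⟩ := wins a
  obtain ⟨x2, hx2⟩ := eventually_atTop.mp ((ev_log_ge 1).and (ev_log_ge x0))
  refine ⟨e, he, min 1 (c / 6), lt_min one_pos (by positivity), min_le_left _ _, x2, ?_⟩
  intro N hN J hJdef
  obtain ⟨g1, g2⟩ := hx2 N hN
  have hJge : Real.log N ^ e ≤ J := by rw [hJdef]; exact Nat.le_ceil _
  have hlJ : Real.log N ≤ J := (le_self_pow₀ g1 (by omega)).trans hJge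
  have hJ1 : 1 ≤ J := by
    have : (1 : ℝ) ≤ J := g1.trans hlJ
    exact_mod_cast this
  have hx0J : x0 ≤ J := by exact_mod_cast g2.trans hlJ
  refine ⟨hJ1, fun t ht => ?_⟩
  rcases Nat.eq_zero_or_pos t with h0 | h0
  · subst h0
    rw [Nat.cast_zero, mul_zero]
    exact Nat.cast_nonneg _
  have hzN : (t + 1) * J ≤ N := (Nat.le_div_iff_mul_le (by omega)).1 ht
  set z := (t + 1) * J with hz
  have hJz : J ≤ z := by rw [hz]; nlinarith
  have hzpos : 0 < z := by omega
  obtain ⟨h1, h2⟩ := hw z (by omega) _ rfl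
  set J' := ⌈Real.log z ^ e⌉₊ with hJ'
  have hJJ : J' ≤ J := by
    rw [hJdef, hJ']
    apply Nat.ceil_mono
    apply pow_le_pow_left₀ (Real.log_natCast_nonneg _)
    apply Real.log_le_log (by exact_mod_cast hzpos)
    exact_mod_cast hzN
  have h3 := longer a z J' J h1 hJJ
  have hJr : (0 : ℝ) < J := by exact_mod_cast (by omega : 0 < J)
  have hJ'r : (0 : ℝ) < J' := by exact_mod_cast (by omega : 0 < J')
  have h4 : c * z ≤ 3 * J * (G a z J).card := by
    calc c * (z : ℝ) = c * (z / J') * J' := by field_simp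
      _ ≤ (G a z J').card * J' := by gcongr
      _ ≤ _ := h3
  have h5 : c * (t + 1) ≤ 3 * (G a z J).card := by
    have h6 : (z : ℝ) = (t + 1) * J := by rw [hz]; push_cast; ring
    rw [h6] at h4
    have h7 : c * (t + 1) * J ≤ (3 * (G a z J).card) * J := by
      calc c * (t + 1) * J = c * ((t + 1) * J) := by ring
        _ ≤ 3 * J * (G a z J).card := h4
        _ = _ := by ring
    exact le_of_mul_le_mul_right h7 hJr
  have h6 : (G a z J).card ≤ cnt (BB a J) t + 1 := by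
    have hsub : G a z J ⊆ insert 0 ((Icc 1 t).filter (BB a J)) := by
      intro i hi
      obtain ⟨q, q1, q2, q3⟩ := mem_G.1 hi
      rw [mem_insert, mem_filter, mem_Icc]
      rcases Nat.eq_zero_or_pos i with h | h
      · exact Or.inl h
      · refine Or.inr ⟨⟨h, ?_⟩, Or.inr (Or.inr ⟨q, q2, q3⟩)⟩
        have : q / J < t + 1 := by
          rw [Nat.div_lt_iff_lt_mul (by omega)]
          exact q1
        omega
    refine (card_le_card hsub).trans ((card_insert_le _ _).trans ?_)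
    apply Nat.add_le_add_right
    unfold cnt
    exact card_le_card fun x hx => hx
  have h7 : 1 ≤ cnt (BB a J) t := by
    unfold cnt
    rw [Nat.one_le_iff_ne_zero, ← Nat.pos_iff_ne_zero, card_pos]
    refine ⟨1, ?_⟩
    rw [mem_filter, mem_Icc]
    exact ⟨⟨le_rfl, h0⟩, Or.inr (Or.inl rfl)⟩
  have h6r : ((G a z J).card : ℝ) ≤ cnt (BB a J) t + 1 := by exact_mod_cast h6
  have h7r : (1 : ℝ) ≤ cnt (BB a J) t := by exact_mod_cast h7
  have ht0 : (0 : ℝ) ≤ t := Nat.cast_nonneg _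
  calc min 1 (c / 6) * (t : ℝ) ≤ c / 6 * t := mul_le_mul_of_nonneg_right (min_le_right _ _) ht0
    _ ≤ _ := by nlinarith

lemma collect (a J : ℕ) (hJ : 1 ≤ J) (l : List ℕ) (hl : ∀ i ∈ l, BB a J i) : ∃ l' : List ℕ,
    (∀ q ∈ l', PI a q) ∧ l'.length ≤ l.length ∧ J * l.sum ≤ l'.sum + J * l.length ∧
      l'.sum ≤ J * l.sum + J * l.length := by
  induction l with
  | nil => exact ⟨[], by simp, by simp, by simp, by simp⟩
  | cons i l ih =>
    obtain ⟨l', h1, h2, h3, h4⟩ := ih (fun x hx => hl x (List.mem_cons_of_mem _ hx))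
    rcases hl i List.mem_cons_self with h | h | ⟨q, hq, h⟩
    · subst h
      refine ⟨l', h1, ?_, ?_, ?_⟩
      · rw [List.length_cons]; omega
      · rw [List.length_cons, List.sum_cons, zero_add, mul_add]; omega
      · rw [List.length_cons, List.sum_cons, zero_add, mul_add]; omega
    · subst h
      refine ⟨l', h1, ?_, ?_, ?_⟩
      · rw [List.length_cons]; omega
      · rw [List.length_cons, List.sum_cons, mul_add, mul_add]; omega
      · rw [List.length_cons, List.sum_cons, mul_add, mul_add]; omega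
    · refine ⟨q :: l', ?_, ?_, ?_, ?_⟩
      · intro x hx
        rcases List.mem_cons.1 hx with h' | h'
        · rw [h']; exact hq
        · exact h1 x h'
      · rw [List.length_cons, List.length_cons]; omega
      · have e1 := Nat.div_add_mod q J
        rw [h] at e1
        rw [List.length_cons, List.sum_cons, List.sum_cons, mul_add, mul_add]
        omega
      · have e1 := Nat.div_add_mod q J
        have e2 := Nat.mod_lt q (by omega : J > 0)
        rw [h] at e1
        rw [List.length_cons, List.sum_cons, List.sum_cons, mul_add, mul_add]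
        omega

/-- **Approximation by sums of a bounded number of iterated primes.** -/
theorem approx (a : ℕ) : ∃ e H x1 : ℕ, 1 ≤ e ∧ ∀ N : ℕ, x1 ≤ N → ∀ J : ℕ, J = ⌈Real.log N ^ e⌉₊ →
    ∃ l : List ℕ, (∀ q ∈ l, PI a q) ∧ l.length ≤ H ∧ l.sum + J ≤ N ∧ N ≤ l.sum + (2 * H + 2) * J := by
  obtain ⟨e, he, δ, hδ, hδ1, x1, hd⟩ := dens a
  obtain ⟨h, hh⟩ := exists_nat_ge (1 / δ)
  have hδh : 1 ≤ δ * h := by
    rw [div_le_iff₀ hδ] at hh
    linarith
  obtain ⟨H, hH⟩ : ∃ H, H = h + h := ⟨_, rfl⟩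
  obtain ⟨x2, hx2⟩ := eventually_atTop.mp ((ev_log_ge 1).and
    (ev_pow e (2 * (H + 1)) 1 (by positivity) one_pos))
  refine ⟨e, H, max x1 x2, he, ?_⟩
  intro N hN J hJdef
  obtain ⟨hJ1, hdens⟩ := hd N ((le_max_left _ _).trans hN) J hJdef
  obtain ⟨g1, g2⟩ := hx2 N ((le_max_right _ _).trans hN)
  rw [Real.rpow_one] at g2
  have hJle : (J : ℝ) ≤ 2 * Real.log N ^ e := by
    have h1 := (Nat.ceil_lt_add_one (by positivity : 0 ≤ Real.log N ^ e)).le
    have h2 : 1 ≤ Real.log N ^ e := one_le_pow₀ g1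
    rw [hJdef]
    linarith
  have hNJ : H + 1 ≤ N / J := by
    rw [Nat.le_div_iff_mul_le (by omega)]
    have h1 : ((H + 1 : ℕ) : ℝ) * J ≤ N := by
      push_cast
      calc ((H : ℝ) + 1) * J ≤ (H + 1) * (2 * Real.log N ^ e) := by gcongr
        _ = 2 * (H + 1) * Real.log N ^ e := by ring
        _ ≤ N := g2
    exact_mod_cast h1
  have hS := schn (BB a J) (N / J - 1) h δ hδ1 hδh (Or.inl rfl) (fun n hn => hdens n (by omega))
    (N / J - (H + 1)) (by omega)
  obtain ⟨l, hl1, hl2, hl3⟩ := hS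
  rw [← hH] at hl1
  obtain ⟨l', h1, h2, h3, h4⟩ := collect a J hJ1 l hl2
  rw [hl1] at h2 h3 h4
  rw [hl3] at h3 h4
  obtain ⟨M, hM⟩ : ∃ M, N / J = M + (H + 1) := ⟨N / J - (H + 1), by omega⟩
  have e1 := Nat.div_add_mod N J
  have e2 := Nat.mod_lt N (by omega : J > 0)
  rw [hM] at e1
  have e3 : N / J - (H + 1) = M := by omega
  rw [e3] at h3 h4
  refine ⟨l', h1, h2, ?_, ?_⟩
  · have : J * (M + (H + 1)) = J * M + J * H + J := by ring
    omega
  · have : J * (M + (H + 1)) = J * M + J * H + J := by ring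
    have : (2 * H + 2) * J = 2 * (J * H) + 2 * J := by ring
    omega

end Pool.Agent.NH85.IP
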