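import Pool.Agent.NH85.IP.Win
import Pool.Agent.Y886.GIE

/-!
# The number of the sums of `j + 1` iterated primes
-/

set_option autoImplicit false

open Finset Filter Topology

namespace Pool.Agent.NH85.IP

open Pool.Agent.TH665.GP (PI_prime density ev_pow ev_log_ge)
open Pool.Agent.H197R2.PG (PI)
open Pool.Agent.Y886.GI (win sums mem_sums union core)

/-- `n` is the sum of `j` `a`-fold iterated primes and of a `b`-fold iterated prime -/
def SJ (a b j n : ℕ) : Prop := ∃ (l : List ℕ) (p : ℕ), l.length = j ∧ (∀ q ∈ l, PI a q) ∧ PI b p ∧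
  l.sum + p = n

lemma ilog_tendsto (k : ℕ) : Tendsto (fun X : ℕ => Real.log^[k] (X : ℝ)) atTop atTop := by
  induction k with
  | zero => exact tendsto_natCast_atTop_atTop
  | succ k ih =>
    simp only [Function.iterate_succ_apply']
    exact Real.tendsto_log_atTop.comp ih

lemma ilog_mono (k : ℕ) : ∃ x0 : ℕ, ∀ x : ℕ, x0 ≤ x → ∀ X : ℕ, x ≤ X →
    1 ≤ Real.log^[k] (x : ℝ) ∧ Real.log^[k] (x : ℝ) ≤ Real.log^[k] (X : ℝ) := by
  induction k with
  | zero =>
    refine ⟨1, fun x hx X hX => ⟨?_, ?_⟩⟩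
    · simpa using hx
    · simpa using hX
  | succ k ih =>
    obtain ⟨x0, h⟩ := ih
    obtain ⟨x1, h1⟩ := eventually_atTop.mp ((ilog_tendsto (k + 1)).eventually_ge_atTop 1)
    refine ⟨max x0 x1, fun x hx X hX => ?_⟩
    obtain ⟨h2, h3⟩ := h x ((le_max_left _ _).trans hx) X hX
    refine ⟨h1 x ((le_max_right _ _).trans hx), ?_⟩
    rw [Function.iterate_succ_apply', Function.iterate_succ_apply']
    exact Real.log_le_log (by linarith) h3

/-- the iterated logarithms of a power of `log x` -/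
lemma ilog_le (e i : ℕ) : ∃ x0 : ℕ, ∀ x : ℕ, x0 ≤ x → ∀ J : ℕ, Real.log x ≤ J →
    (J : ℝ) ≤ Real.log x ^ (e + 1) → Real.log^[i + 2] (x : ℝ) ≤ Real.log^[i + 1] (J : ℝ) ∧
      Real.log^[i + 1] (J : ℝ) ≤ (e + 1) * Real.log^[i + 2] (x : ℝ) := by
  induction i with
  | zero =>
    obtain ⟨x1, h1⟩ := eventually_atTop.mp (ev_log_ge 1)
    refine ⟨x1, fun x hx J hJ1 hJ2 => ?_⟩
    have hl := h1 x hx
    have hl0 : 0 < Real.log x := by linarith
    constructor
    · show Real.log (Real.log x) ≤ Real.log J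
      exact Real.log_le_log hl0 hJ1
    · show Real.log J ≤ (e + 1) * Real.log (Real.log x)
      calc Real.log J ≤ Real.log (Real.log x ^ (e + 1)) := Real.log_le_log (by linarith) hJ2
        _ = _ := by rw [Real.log_pow]; push_cast; ring
  | succ i ih =>
    obtain ⟨x0, h⟩ := ih
    obtain ⟨x1, h1⟩ := eventually_atTop.mp (((ilog_tendsto (i + 2)).eventually_ge_atTop 1).and
      ((ilog_tendsto (i + 3)).eventually_ge_atTop 1))
    refine ⟨max x0 x1, fun x hx J hJ1 hJ2 => ?_⟩
    obtain ⟨h2, h3⟩ := h x ((le_max_left _ _).trans hx) J hJ1 hJ2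
    obtain ⟨h4, h5⟩ := h1 x ((le_max_right _ _).trans hx)
    have e1 : Real.log^[i + 1 + 1] (J : ℝ) = Real.log (Real.log^[i + 1] (J : ℝ)) :=
      Function.iterate_succ_apply' _ _ _
    have e2 : Real.log^[i + 1 + 2] (x : ℝ) = Real.log (Real.log^[i + 2] (x : ℝ)) :=
      Function.iterate_succ_apply' _ _ _
    have e3 : Real.log^[i + 3] (x : ℝ) = Real.log (Real.log^[i + 2] (x : ℝ)) :=
      Function.iterate_succ_apply' _ _ _
    rw [e3] at h5
    rw [e1, e2]
    refine ⟨Real.log_le_log (by linarith) h2, ?_⟩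
    have h6 : Real.log ((e : ℝ) + 1) ≤ e := by
      have := Real.log_le_sub_one_of_pos (by positivity : (0 : ℝ) < e + 1)
      linarith
    calc Real.log (Real.log^[i + 1] (J : ℝ)) ≤ Real.log ((e + 1) * Real.log^[i + 2] (x : ℝ)) :=
          Real.log_le_log (by linarith) h3
      _ = Real.log ((e : ℝ) + 1) + Real.log (Real.log^[i + 2] (x : ℝ)) := by
          rw [Real.log_mul (by positivity) (by linarith)]
      _ ≤ e * Real.log (Real.log^[i + 2] (x : ℝ)) + Real.log (Real.log^[i + 2] (x : ℝ)) := by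
          have : (e : ℝ) * 1 ≤ e * Real.log (Real.log^[i + 2] (x : ℝ)) := by gcongr
          linarith
      _ = _ := by ring

/-- the number of the sums of `j + 1` iterated primes of type `a` and one of type `b` -/
theorem densJ (a b j : ℕ) : ∀ eps : ℝ, 0 < eps → ∀ᶠ X : ℕ in atTop, ∃ S : Finset ℕ,
    (∀ n ∈ S, 0 < n ∧ n ≤ X ∧ SJ a b (j + 1) n) ∧
    X / (Real.log^[j + 2] (X : ℝ)) ^ ((b : ℝ) + eps) ≤ S.card := by
  classical
  induction j with
  | zero =>
    intro eps heps
    filter_upwards [core a b eps heps] with X h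
    obtain ⟨S, h1, h2⟩ := h
    refine ⟨S, ?_, h2⟩
    intro n hn
    obtain ⟨h3, p, q, h4, h5, h6, h7, h8, h9⟩ := h1 n hn
    exact ⟨by omega, h3, [q], p, by simp, by simpa using h8, h7, by simpa using h9⟩
  | succ j ih =>
    intro eps heps
    obtain ⟨e, he, c, hc, x0, hw⟩ := wins a
    obtain ⟨J0, hJ0⟩ := eventually_atTop.mp (ih (eps / 2) (by positivity))
    obtain ⟨x1, hx1⟩ := ilog_le e (j + 1)
    obtain ⟨x2, hx2⟩ := ilog_mono (j + 3)
    set β : ℝ := (b : ℝ) + eps / 2 with hβ
    have hβ0 : 0 < β := by positivity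
    have hlast : ∀ᶠ X : ℕ in atTop, (8 / c) * ((e : ℝ) + 1) ^ β ≤
        (Real.log^[j + 3] (X : ℝ)) ^ (eps / 2) :=
      ((tendsto_rpow_atTop (by positivity)).comp (ilog_tendsto (j + 3))).eventually_ge_atTop _
    obtain ⟨x3, hx3⟩ := eventually_atTop.mp (hlast.and ((ev_log_ge 2).and ((ev_log_ge J0).and
      ((ev_pow e 2 1 (by norm_num) one_pos).and ((ilog_tendsto (j + 2)).eventually_ge_atTop 1)))))
    have hlogJ : Tendsto (fun X : ℕ => Real.log^[j + 3] (X : ℝ)) atTop atTop := ilog_tendsto _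
    filter_upwards [eventually_ge_atTop (2 * (x0 + x1 + x2 + x3 + 1))] with X hX
    set x : ℕ := X / 2 with hx
    have hxX : x ≤ X := Nat.div_le_self _ _
    obtain ⟨-, g2, g3, g4, -⟩ := hx3 x (by omega)
    obtain ⟨g1, -, -, -, -⟩ := hx3 X (by omega)
    rw [Real.rpow_one] at g4
    set l : ℝ := Real.log x with hl
    have hl1 : 1 ≤ l := by linarith
    set J : ℕ := ⌈l ^ e⌉₊ with hJdef
    obtain ⟨hJ1, hG⟩ := hw x (by omega) J hJdef
    have hJge : l ^ e ≤ J := Nat.le_ceil _
    have hlJ : l ≤ J := (le_self_pow₀ hl1 (by omega)).trans hJge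
    have hJle2 : (J : ℝ) ≤ 2 * l ^ e := by
      have h1 := (Nat.ceil_lt_add_one (by positivity : 0 ≤ l ^ e)).le
      have h2 : 1 ≤ l ^ e := one_le_pow₀ hl1
      rw [hJdef]
      linarith
    have hJle : (J : ℝ) ≤ l ^ (e + 1) := by
      calc (J : ℝ) ≤ 2 * l ^ e := hJle2
        _ ≤ l * l ^ e := by gcongr
        _ = _ := by ring
    have hJx : J ≤ x := by
      have : (J : ℝ) ≤ x := hJle2.trans g4
      exact_mod_cast this
    have hJ0J : J0 ≤ J := by exact_mod_cast g3.trans hlJ
    obtain ⟨P, hP1, hP2⟩ := hJ0 J hJ0J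
    set Q : Finset ℕ := (range x).filter (fun q => PI a q) with hQ
    have hun := union J hJ1 P Q (fun p hp => ⟨(hP1 p hp).1, (hP1 p hp).2.1⟩) (G a x J) (P.card : ℝ) (by
      intro i hi
      obtain ⟨q, q1, q2, q3⟩ := mem_G.1 hi
      have hsub : P.image (fun p => q + p) ⊆ sums P (win J Q i) := by
        intro m hm
        obtain ⟨p, hp, rfl⟩ := mem_image.1 hm
        refine mem_sums.2 ⟨p, hp, q, ?_, rfl⟩
        unfold win
        rw [mem_filter, hQ, mem_filter, mem_range]
        exact ⟨⟨q1, q2⟩, q3⟩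
      have h1 : (P.image (fun p => q + p)).card = P.card :=
        card_image_of_injective _ (fun u v h => by simpa using h)
      rw [← h1]
      exact_mod_cast card_le_card hsub)
    refine ⟨sums P Q, ?_, ?_⟩
    · intro n hn
      obtain ⟨p, hp, q, hq, h⟩ := mem_sums.1 hn
      obtain ⟨h1, h2, l', p', h3, h4, h5, h6⟩ := hP1 p hp
      rw [hQ, mem_filter, mem_range] at hq
      refine ⟨by omega, by omega, q :: l', p', ?_, ?_, h5, ?_⟩
      · rw [List.length_cons, h3]
      · intro y hy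
        rcases List.mem_cons.1 hy with hy | hy
        · rw [hy]; exact hq.2
        · exact h4 y hy
      · rw [List.sum_cons]; omega
    · obtain ⟨k1, k2⟩ := hx1 x (by omega) J hlJ hJle
      obtain ⟨k3, k4⟩ := hx2 x (by omega) X hxX
      have e1 : j + 1 + 1 = j + 2 := rfl
      have e2 : j + 1 + 2 = j + 3 := rfl
      rw [e2, e1] at k1 k2
      rw [e2]
      set y : ℝ := Real.log^[j + 3] (X : ℝ) with hy
      set w : ℝ := Real.log^[j + 2] (J : ℝ) with hw'
      have hy1 : 1 ≤ y := k3.trans k4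
      have hy0 : 0 < y := by linarith
      have hw0 : 0 < w := by linarith
      have hwy : w ≤ (e + 1) * y := k2.trans (by gcongr)
      have hwβ : w ^ β ≤ ((e : ℝ) + 1) ^ β * y ^ β := by
        rw [← Real.mul_rpow (by positivity) hy0.le]
        exact Real.rpow_le_rpow hw0.le hwy hβ0.le
      have hwp : 0 < w ^ β := Real.rpow_pos_of_pos hw0 _
      have hJr : (0 : ℝ) < J := by exact_mod_cast (by omega : 0 < J)
      have h1 : c * x / w ^ β ≤ 2 * (sums P Q).card := by
        refine le_trans ?_ hun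
        calc c * x / w ^ β = (c * (x / J)) * (J / w ^ β) := by field_simp
          _ ≤ ((G a x J).card : ℝ) * P.card := by
              apply mul_le_mul hG hP2 (by positivity) (Nat.cast_nonneg _)
      have h2 : (X : ℝ) ≤ 4 * x := by
        have : X ≤ 4 * x := by omega
        exact_mod_cast this
      have h3 : (8 / c) * w ^ β ≤ y ^ ((b : ℝ) + eps) := by
        calc (8 / c) * w ^ β ≤ (8 / c) * (((e : ℝ) + 1) ^ β * y ^ β) := by gcongr
          _ = ((8 / c) * ((e : ℝ) + 1) ^ β) * y ^ β := by ring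
          _ ≤ y ^ (eps / 2) * y ^ β := by gcongr
          _ = y ^ ((b : ℝ) + eps) := by
              rw [← Real.rpow_add hy0, hβ]
              congr 1
              ring
      rw [div_le_iff₀ (Real.rpow_pos_of_pos hy0 _)]
      rw [div_le_iff₀ hwp] at h1
      have h4 : c * X ≤ c * ((sums P Q).card * y ^ ((b : ℝ) + eps)) := by
        calc c * X ≤ c * (4 * x) := by gcongr
          _ = 4 * (c * x) := by ring
          _ ≤ 4 * (2 * (sums P Q).card * w ^ β) := by gcongr
          _ = (c * (sums P Q).card) * ((8 / c) * w ^ β) := by field_simp; ring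
          _ ≤ (c * (sums P Q).card) * y ^ ((b : ℝ) + eps) := by gcongr
          _ = _ := by ring
      exact le_of_mul_le_mul_left h4 hc

end Pool.Agent.NH85.IP
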