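import Pool.Agent.NH85.IP.Approx

/-!
# Every large integer is a sum of `O(log* N)` iterated primes
-/

set_option autoImplicit false

open Finset Filter Topology

namespace Pool.Agent.NH85.IP

open Pool.Agent.TH665.GP (PI_prime density ev_pow ev_log_ge)
open Pool.Agent.H197R2.PG (PI)

/-- two different iterated primes -/
lemma two (a : ℕ) : ∃ p q : ℕ, PI a p ∧ PI a q ∧ p ≠ q := by
  obtain ⟨c, hc, y0, h⟩ := density a
  obtain ⟨x2, hx2⟩ := eventually_atTop.mp ((ev_pow (a + 1) (2 / c) 1 (by positivity) one_pos).and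
    (eventually_ge_atTop 1))
  set y := max y0 x2 with hy
  obtain ⟨S, hS1, hS2, hS3⟩ := h y (le_max_left _ _)
  obtain ⟨g1, g2⟩ := hx2 y (le_max_right _ _)
  rw [Real.rpow_one] at g1
  have hcard : 1 < S.card := by
    by_contra hcon
    have h1 : (S.card : ℝ) ≤ 1 := by exact_mod_cast (not_lt.1 hcon)
    have hl : 0 ≤ Real.log y ^ (a + 1) := pow_nonneg (Real.log_natCast_nonneg _) _
    have h2 : c * y ≤ Real.log y ^ (a + 1) := by
      calc c * y ≤ S.card * Real.log y ^ (a + 1) := hS3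
        _ ≤ 1 * Real.log y ^ (a + 1) := mul_le_mul_of_nonneg_right h1 hl
        _ = _ := one_mul _
    have hy0 : (0 : ℝ) < y := by exact_mod_cast (by omega : 0 < y)
    have h3 : 2 * Real.log y ^ (a + 1) ≤ c * y := by
      calc 2 * Real.log y ^ (a + 1) = c * (2 / c * Real.log y ^ (a + 1)) := by field_simp
        _ ≤ c * y := mul_le_mul_of_nonneg_left g1 hc.le
    have h4 : 0 < c * y := by positivity
    linarith
  obtain ⟨p, hp, q, hq, hpq⟩ := Finset.one_lt_card.1 hcard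
  exact ⟨p, q, hS2 p hp, hS2 q hq, hpq⟩

/-- every large integer is a sum of iterated primes -/
lemma frob (a : ℕ) : ∃ L : ℕ, ∀ N : ℕ, L ≤ N → ∃ l : List ℕ, (∀ q ∈ l, PI a q) ∧ l.length ≤ N ∧
    l.sum = N := by
  obtain ⟨p, q, hp, hq, hpq⟩ := two a
  have hp' := PI_prime hp
  have hq' := PI_prime hq
  have hcop : Nat.Coprime p q := (Nat.coprime_primes hp' hq').2 hpq
  have h1 := (frobeniusNumber_iff.1 (frobeniusNumber_pair hcop hp'.one_lt hq'.one_lt)).2
  refine ⟨p * q - p - q + 1, fun N hN => ?_⟩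
  have h2 := h1 N (by omega)
  rw [AddSubmonoid.mem_closure_pair] at h2
  obtain ⟨m, n, hmn⟩ := h2
  refine ⟨List.replicate m p ++ List.replicate n q, ?_, ?_, ?_⟩
  · intro x hx
    rcases List.mem_append.1 hx with h | h
    · rw [List.eq_of_mem_replicate h]; exact hp
    · rw [List.eq_of_mem_replicate h]; exact hq
  · rw [List.length_append, List.length_replicate, List.length_replicate]
    rw [smul_eq_mul, smul_eq_mul] at hmn
    have := hp'.one_lt
    have := hq'.one_lt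
    nlinarith
  · rw [List.sum_append, List.sum_replicate, List.sum_replicate]
    exact hmn

/-- the numerical inequality for two steps -/
lemma num (e H : ℕ) (he : 1 ≤ e) (x1 : ℕ) : ∃ y1 : ℕ, x1 ≤ y1 ∧ ∀ N : ℕ, y1 ≤ N → ∀ J : ℕ,
    J = ⌈Real.log N ^ e⌉₊ → x1 ≤ J ∧ ∀ r : ℕ, y1 ≤ r → r ≤ (2 * H + 2) * J → ∀ J' : ℕ,
      J' = ⌈Real.log r ^ e⌉₊ → (2 * H + 2) * J' ≤ Nat.log 2 N := by
  have hll : ∀ᶠ l : ℝ in atTop, (4 * H + 4) * ((e : ℝ) + 1) ^ e * Real.log l ^ e ≤ l / 2 := by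
    have h1 := (isLittleO_log_rpow_rpow_atTop (e : ℝ) one_pos).bound
      (by positivity : (0 : ℝ) < 1 / (2 * ((4 * H + 4) * ((e : ℝ) + 1) ^ e)))
    filter_upwards [h1, eventually_ge_atTop 1] with l h1 h2
    have hl : 0 ≤ Real.log l := Real.log_nonneg h2
    rw [Real.rpow_natCast, Real.rpow_one, Real.norm_of_nonneg (by positivity),
      Real.norm_of_nonneg (by positivity)] at h1
    calc (4 * H + 4) * ((e : ℝ) + 1) ^ e * Real.log l ^ e
        ≤ (4 * H + 4) * ((e : ℝ) + 1) ^ e *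
          (1 / (2 * ((4 * H + 4) * ((e : ℝ) + 1) ^ e)) * l) := by gcongr
      _ = l / 2 := by field_simp
  have hloglog : Tendsto (fun X : ℕ => Real.log (X : ℝ)) atTop atTop :=
    Real.tendsto_log_atTop.comp tendsto_natCast_atTop_atTop
  obtain ⟨x2, hx2⟩ := eventually_atTop.mp ((hloglog.eventually hll).and ((ev_log_ge 3).and
    ((ev_log_ge x1).and (ev_log_ge (4 * H + 4)))))
  refine ⟨max x1 x2, le_max_left _ _, ?_⟩
  intro N hN J hJdef
  obtain ⟨g1, g2, g3, g4⟩ := hx2 N ((le_max_right _ _).trans hN)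
  set l := Real.log N with hl
  have hl1 : 1 ≤ l := by linarith
  have hJge : l ^ e ≤ J := by rw [hJdef]; exact Nat.le_ceil _
  have hlJ : l ≤ J := (le_self_pow₀ hl1 (by omega)).trans hJge
  have hceil : ∀ z : ℝ, 1 ≤ z → ((⌈z ^ e⌉₊ : ℕ) : ℝ) ≤ 2 * z ^ e := by
    intro z hz
    have h1 := (Nat.ceil_lt_add_one (by positivity : 0 ≤ z ^ e)).le
    have h2 : 1 ≤ z ^ e := one_le_pow₀ hz
    linarith
  refine ⟨by exact_mod_cast g3.trans hlJ, ?_⟩
  intro r hr hrle J' hJ'
  obtain ⟨-, g2', -, -⟩ := hx2 r ((le_max_right _ _).trans hr)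
  have hr1 : (1 : ℝ) ≤ Real.log r := by linarith
  have hJle : (J : ℝ) ≤ 2 * l ^ e := by rw [hJdef]; exact hceil l hl1
  have h1 : (r : ℝ) ≤ l ^ (e + 1) := by
    have h2 : (r : ℝ) ≤ (2 * H + 2) * J := by exact_mod_cast hrle
    calc (r : ℝ) ≤ (2 * H + 2) * J := h2
      _ ≤ (2 * H + 2) * (2 * l ^ e) := by gcongr
      _ = (4 * H + 4) * l ^ e := by ring
      _ ≤ l * l ^ e := by gcongr
      _ = _ := by ring
  have hr0 : (0 : ℝ) < r := by
    by_contra hcon
    have h0 : (r : ℝ) = 0 := le_antisymm (not_lt.1 hcon) (Nat.cast_nonneg _)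
    rw [h0, Real.log_zero] at hr1
    linarith
  have h2 : Real.log r ≤ (e + 1) * Real.log l := by
    calc Real.log r ≤ Real.log (l ^ (e + 1)) := Real.log_le_log hr0 h1
      _ = _ := by rw [Real.log_pow]; push_cast; ring
  have h3 : (J' : ℝ) ≤ 2 * ((e + 1) * Real.log l) ^ e := by
    rw [hJ']
    refine (hceil _ hr1).trans ?_
    gcongr
  have h4 : (2 * (H : ℝ) + 2) * J' ≤ l / 2 := by
    calc (2 * (H : ℝ) + 2) * J' ≤ (2 * H + 2) * (2 * ((e + 1) * Real.log l) ^ e) := by gcongr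
      _ = (4 * H + 4) * ((e : ℝ) + 1) ^ e * Real.log l ^ e := by rw [mul_pow]; ring
      _ ≤ l / 2 := g1
  have h5 : l / 2 ≤ (Nat.log 2 N : ℝ) := by
    have hN0 : N ≠ 0 := by
      rintro rfl
      rw [hl, Nat.cast_zero, Real.log_zero] at hl1
      linarith
    have h6 : N < 2 ^ (Nat.log 2 N + 1) := Nat.lt_pow_succ_log_self (by norm_num) N
    have h7 : (N : ℝ) ≤ 2 ^ (Nat.log 2 N + 1) := by exact_mod_cast h6.le
    have h8 : l ≤ (Nat.log 2 N + 1) * Real.log 2 := by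
      calc l ≤ Real.log (2 ^ (Nat.log 2 N + 1)) :=
            Real.log_le_log (by exact_mod_cast Nat.pos_of_ne_zero hN0) h7
        _ = _ := by rw [Real.log_pow]; push_cast; ring
    have h9 : Real.log 2 ≤ 1 := by linarith [Real.log_two_lt_d9]
    have h10 : (0 : ℝ) ≤ (Nat.log 2 N : ℝ) + 1 := by positivity
    have h11 : l ≤ Nat.log 2 N + 1 := by
      calc l ≤ (Nat.log 2 N + 1) * Real.log 2 := h8
        _ ≤ (Nat.log 2 N + 1) * 1 := by gcongr
        _ = _ := mul_one _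
    linarith
  have h6 : (((2 * H + 2) * J' : ℕ) : ℝ) ≤ (Nat.log 2 N : ℝ) := by
    push_cast
    linarith
  exact_mod_cast h6

/-- one or two steps: the remainder is at most `log_2 N`, or bounded -/
lemma step (a L : ℕ) : ∃ H y1 : ℕ, L ≤ y1 ∧ ∀ N : ℕ, L ≤ N → ∃ (l : List ℕ) (r : ℕ),
    (∀ q ∈ l, PI a q) ∧ l.length ≤ H ∧ l.sum + r = N ∧ L ≤ r ∧ r ≤ max y1 (Nat.log 2 N) := by
  obtain ⟨e, H, x1, he, h⟩ := approx a
  obtain ⟨y1, hy1, hnum⟩ := num e H he (max x1 L)
  refine ⟨H + H, y1, (le_max_right _ _).trans hy1, ?_⟩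
  intro N hLN
  rcases Nat.lt_or_ge N y1 with hN | hN
  · exact ⟨[], N, by simp, by simp, by simp, hLN, hN.le.trans (le_max_left _ _)⟩
  obtain ⟨hJ, hnum'⟩ := hnum N hN _ rfl
  obtain ⟨l, h1, h2, h3, h4⟩ := h N ((le_max_left _ _).trans (hy1.trans hN)) _ rfl
  set J := ⌈Real.log N ^ e⌉₊ with hJdef
  obtain ⟨r, hr⟩ : ∃ r, N = l.sum + r := ⟨N - l.sum, by omega⟩
  have hrJ : J ≤ r := by omega
  have hLJ : L ≤ J := (le_max_right _ _).trans hJ
  rcases Nat.lt_or_ge r y1 with hr1 | hr1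
  · exact ⟨l, r, h1, by omega, by omega, by omega, hr1.le.trans (le_max_left _ _)⟩
  obtain ⟨hJ', -⟩ := hnum r hr1 _ rfl
  have hb := hnum' r hr1 (by omega) _ rfl
  obtain ⟨l', h1', h2', h3', h4'⟩ := h r ((le_max_left _ _).trans (hy1.trans hr1)) _ rfl
  set J' := ⌈Real.log r ^ e⌉₊ with hJ'def
  obtain ⟨r', hr'⟩ : ∃ r', r = l'.sum + r' := ⟨r - l'.sum, by omega⟩
  have hLJ' : L ≤ J' := (le_max_right _ _).trans hJ'
  refine ⟨l ++ l', r', ?_, ?_, ?_, by omega, le_trans (by omega) (le_max_right _ _)⟩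
  · intro x hx
    rcases List.mem_append.1 hx with h | h
    · exact h1 x h
    · exact h1' x h
  · rw [List.length_append]; omega
  · rw [List.sum_append]; omega

/-- **Approximation by sums of `O(j)` iterated primes up to the `j`-th iterated logarithm.** -/
theorem iter (a L : ℕ) : ∃ C K : ℕ, ∀ j N : ℕ, L ≤ N → ∃ (l : List ℕ) (r : ℕ), (∀ q ∈ l, PI a q) ∧
    l.length ≤ C * j ∧ l.sum + r = N ∧ L ≤ r ∧ r ≤ max K ((Nat.log 2)^[j] N) := by
  obtain ⟨H, y1, hy1, h⟩ := step a L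
  refine ⟨H, y1, fun j => ?_⟩
  induction j with
  | zero => exact fun N hN => ⟨[], N, by simp, by simp, by simp, hN, le_max_right _ _⟩
  | succ j ih =>
    intro N hN
    obtain ⟨l, r, h1, h2, h3, h4, h5⟩ := ih N hN
    obtain ⟨l', r', h1', h2', h3', h4', h5'⟩ := h r h4
    refine ⟨l ++ l', r', ?_, ?_, ?_, h4', ?_⟩
    · intro x hx
      rcases List.mem_append.1 hx with h | h
      · exact h1 x h
      · exact h1' x h
    · rw [List.length_append, mul_add, mul_one]; omega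
    · rw [List.sum_append]; omega
    · refine h5'.trans (max_le (le_max_left _ _) ?_)
      rw [Function.iterate_succ_apply']
      rcases le_max_iff.1 h5 with h | h
      · exact ((Nat.log_mono_right h).trans (Nat.log_le_self 2 y1)).trans (le_max_left _ _)
      · exact (Nat.log_mono_right h).trans (le_max_right _ _)

/-- the iterated logarithm: the least `j` such that `j` applications of the (rounded down) logarithm
to the base `2` lead from `N` to a number `≤ 1` -/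
noncomputable def lstar (N : ℕ) : ℕ := sInf {j : ℕ | (Nat.log 2)^[j] N ≤ 1}

lemma lstar_spec (N : ℕ) : (Nat.log 2)^[lstar N] N ≤ 1 := by
  have h : {j : ℕ | (Nat.log 2)^[j] N ≤ 1}.Nonempty := by
    induction N using Nat.strong_induction_on with
    | _ N ih =>
      rcases Nat.lt_or_ge 1 N with h | h
      · obtain ⟨j, hj⟩ := ih (Nat.log 2 N) (Nat.log_lt_self 2 (by omega))
        exact ⟨j + 1, hj⟩
      · exact ⟨0, h⟩
  exact Nat.sInf_mem h

/-- the first part -/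
theorem main1 (a : ℕ) : ∃ C K : ℕ, ∀ j N : ℕ, ∃ l : List ℕ, (∀ q ∈ l, PI a q) ∧ l.length ≤ C * j ∧
    l.sum ≤ N ∧ N ≤ l.sum + max K ((Nat.log 2)^[j] N) := by
  obtain ⟨C, K, h⟩ := iter a 0
  refine ⟨C, K, fun j N => ?_⟩
  obtain ⟨l, r, h1, h2, h3, -, h5⟩ := h j N (Nat.zero_le _)
  exact ⟨l, h1, h2, by omega, by omega⟩

/-- **Every large integer is a sum of `O(log* N)` iterated primes.** -/
theorem main2 (a : ℕ) : ∃ C L : ℕ, ∀ N : ℕ, L ≤ N → ∃ l : List ℕ, (∀ q ∈ l, PI a q) ∧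
    l.length ≤ C * (lstar N + 1) ∧ l.sum = N := by
  obtain ⟨L, hL⟩ := frob a
  obtain ⟨C, K, h⟩ := iter a L
  refine ⟨C + max K 1, L, fun N hN => ?_⟩
  obtain ⟨l, r, h1, h2, h3, h4, h5⟩ := h (lstar N) N hN
  obtain ⟨l', h1', h2', h3'⟩ := hL r h4
  have h6 : r ≤ max K 1 := h5.trans (max_le_max le_rfl (lstar_spec N))
  refine ⟨l ++ l', ?_, ?_, ?_⟩
  · intro x hx
    rcases List.mem_append.1 hx with h | h
    · exact h1 x h
    · exact h1' x h
  · rw [List.length_append]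
    calc l.length + l'.length ≤ C * lstar N + max K 1 := by omega
      _ ≤ (C + max K 1) * (lstar N + 1) := by nlinarith [Nat.zero_le (max K 1 * lstar N)]
  · rw [List.sum_append]; omega

end Pool.Agent.NH85.IP
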