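import Pool.Agent.Y886.GIC
import Pool.Agent.W851.Had.Schn

/-!
# Windows with iterated primes
-/

set_option autoImplicit false

open Finset Filter Topology

namespace Pool.Agent.NH85.IP

open Pool.Agent.TH665.GP (TT mem_TT PI_prime energy density density3 TT_le ev_pow ev_log_ge)
open Pool.Agent.H197R2.PG (PI)
open Pool.Agent.Y886.GI (win big)

open Classical in
/-- the indices of the windows of length `J` which contain an `a`-fold iterated prime `< X` -/
noncomputable def G (a X J : ℕ) : Finset ℕ := ((range X).filter (fun q => PI a q)).image (· / J)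

lemma mem_G {a X J i : ℕ} : i ∈ G a X J ↔ ∃ q, q < X ∧ PI a q ∧ q / J = i := by
  classical
  unfold G
  rw [mem_image]
  constructor
  · rintro ⟨q, hq, h⟩
    rw [mem_filter, mem_range] at hq
    exact ⟨q, hq.1, hq.2, h⟩
  · rintro ⟨q, h1, h2, h3⟩
    exact ⟨q, by rw [mem_filter, mem_range]; exact ⟨h1, h2⟩, h3⟩

/-- a positive proportion of the windows contains an iterated prime -/
theorem wins (a : ℕ) : ∃ e : ℕ, 1 ≤ e ∧ ∃ c : ℝ, 0 < c ∧ ∃ x0 : ℕ, ∀ X : ℕ, x0 ≤ X → ∀ J : ℕ,
    J = ⌈Real.log X ^ e⌉₊ → 1 ≤ J ∧ c * (X / J) ≤ ((G a X J).card : ℝ) := by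
  classical
  obtain ⟨E, hE⟩ := TT_le a
  set e0 : ℕ := E + a + 3 with he0
  set F : ℕ := e0 + 1 with hF
  obtain ⟨C3, hC3, x1, hT⟩ := hE F
  obtain ⟨c2, hc2, y2, hQ⟩ := density3 a
  set c4 : ℝ := min ((c2 / 2) ^ 2 / (16 * C3)) (c2 / 2 / 8) with hc4
  have hc40 : 0 < c4 := lt_min (by positivity) (by positivity)
  obtain ⟨x2, hx2⟩ := eventually_atTop.mp ((ev_log_ge 3).and ((ev_log_ge (16 / c2)).and
    (ev_pow F 4 1 (by norm_num) one_pos)))
  refine ⟨e0, by omega, c4, hc40, max x1 (max x2 (y2 + 4)), ?_⟩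
  intro X hX J hJdef
  obtain ⟨g1, g2, g6⟩ := hx2 X ((le_max_left _ _).trans ((le_max_right _ _).trans hX))
  have g4 : x1 ≤ X := (le_max_left _ _).trans hX
  have g7 : y2 + 4 ≤ X := (le_max_right _ _).trans ((le_max_right _ _).trans hX)
  rw [Real.rpow_one] at g6
  set l : ℝ := Real.log X with hl
  have hl0 : 0 < l := by linarith
  have hl1 : 1 ≤ l := by linarith
  have hX0n : 0 < X := by omega
  have hX0 : (0 : ℝ) < X := by exact_mod_cast hX0n
  have hJge : l ^ e0 ≤ J := by rw [hJdef]; exact Nat.le_ceil _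
  have hJle : (J : ℝ) ≤ l ^ F := by
    have h1 := (Nat.ceil_lt_add_one (by positivity : 0 ≤ l ^ e0)).le
    have h2 : 1 ≤ l ^ e0 := one_le_pow₀ hl1
    have h3 : l ^ F = l ^ e0 * l := by rw [hF, pow_succ]
    rw [h3, hJdef]
    nlinarith
  have hJ1r : (1 : ℝ) ≤ J := (one_le_pow₀ hl1).trans hJge
  have hJ1 : 1 ≤ J := by exact_mod_cast hJ1r
  have hJr0 : (0 : ℝ) < J := by linarith
  refine ⟨hJ1, ?_⟩
  have hJX : 4 * (J : ℝ) ≤ X := by
    calc 4 * (J : ℝ) ≤ 4 * l ^ F := by gcongr
      _ ≤ X := g6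
  obtain ⟨Q, hS1, hS2, hS3⟩ := hQ (X - 1) (by omega)
  have hcastXY : ((X - 1 : ℕ) : ℝ) = X - 1 := by
    rw [Nat.cast_sub (by omega), Nat.cast_one]
  have hX4 : (4 : ℝ) ≤ X := by exact_mod_cast (by omega : 4 ≤ X)
  have hQcard : (c2 / 2) * X ≤ Q.card * l ^ (a + 1) := by
    have h3 : Real.log ((X - 1 : ℕ) : ℝ) ≤ l := by
      apply Real.log_le_log
      · rw [hcastXY]; linarith
      · rw [hcastXY]; linarith
    have h3' : 0 ≤ Real.log ((X - 1 : ℕ) : ℝ) := Real.log_natCast_nonneg _
    have h4 : c2 * ((X - 1 : ℕ) : ℝ) ≤ Q.card * l ^ (a + 1) := by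
      calc c2 * ((X - 1 : ℕ) : ℝ) ≤ Q.card * Real.log ((X - 1 : ℕ) : ℝ) ^ (a + 1) := hS3
        _ ≤ Q.card * l ^ (a + 1) := by gcongr
    rw [hcastXY] at h4
    have h6 : c2 * (X / 2) ≤ c2 * (X - 1) := by
      apply mul_le_mul_of_nonneg_left _ hc2.le
      linarith
    linarith
  have hla : 0 < l ^ (a + 1) := by positivity
  have hQpos : 0 < (Q.card : ℝ) := by
    by_contra hcon
    have h0 : (Q.card : ℝ) = 0 := le_antisymm (not_lt.mp hcon) (Nat.cast_nonneg _)
    rw [h0, zero_mul] at hQcard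
    have : 0 < c2 / 2 * X := by positivity
    linarith
  have hTT := hT X J g4 (by
    refine le_trans ?_ hJge
    exact pow_le_pow_right₀ hl1 (by omega)) hJle
  have hlJ : l * l ^ (a + 1) ≤ J := by
    calc l * l ^ (a + 1) = l ^ (a + 2) := by ring
      _ ≤ l ^ e0 := pow_le_pow_right₀ hl1 (by omega)
      _ ≤ J := hJge
  have hMle : ((X / J : ℕ) + 1 : ℝ) * 1 ≤ Q.card / 2 := by
    have h1 : ((X / J : ℕ) : ℝ) ≤ X / J := Nat.cast_div_le
    have h2 : (1 : ℝ) ≤ X / J := by
      rw [one_le_div hJr0]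
      linarith
    have h3 : 4 * (X / J : ℝ) ≤ Q.card := by
      rw [mul_div_assoc', div_le_iff₀ hJr0]
      have h4 : 16 ≤ c2 * l := by
        rw [div_le_iff₀ hc2] at g2
        linarith
      have h5 : (c2 / 2 * X) * l ≤ Q.card * J := by
        calc (c2 / 2 * X) * l ≤ (Q.card * l ^ (a + 1)) * l := by gcongr
          _ = Q.card * (l * l ^ (a + 1)) := by ring
          _ ≤ Q.card * J := by gcongr
      nlinarith
    linarith
  have hQX : Q ⊆ range X := by
    intro q hq
    have h1 := mem_Icc.mp (hS1 hq)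
    rw [mem_range]
    omega
  have hbig := big a X J hJ1 Q hQX hS2 1 zero_le_one hMle
  set I := (range (X / J + 1)).filter (fun i => (1 : ℝ) ≤ (win J Q i).card) with hI
  have hIc : c4 * (X / J) ≤ I.card := by
    have hTT0 : (0 : ℝ) ≤ (TT a X J).card := Nat.cast_nonneg _
    have hI0 : (0 : ℝ) ≤ I.card := Nat.cast_nonneg _
    have hl2 : l ^ (2 * a + 2) = l ^ (a + 1) * l ^ (a + 1) := by rw [← pow_add]; congr 1; ring
    rcases le_total ((Q.card : ℝ)) (2 * (TT a X J).card) with h | h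
    · have h1 : ((Q.card : ℝ) / 2) ^ 2 ≤ I.card * (4 * (C3 * J * X / l ^ (2 * a + 2))) := by
        refine hbig.trans ?_
        apply mul_le_mul_of_nonneg_left _ hI0
        linarith
      have h2 : (c2 / 2 * X) ^ 2 ≤ (Q.card * l ^ (a + 1)) ^ 2 := pow_le_pow_left₀ (by positivity) hQcard 2
      have h3 : (c2 / 2 * X) ^ 2 ≤ I.card * (16 * C3 * J * X) := by
        calc (c2 / 2 * X) ^ 2 ≤ (Q.card * l ^ (a + 1)) ^ 2 := h2
          _ = 4 * (((Q.card : ℝ) / 2) ^ 2 * l ^ (2 * a + 2)) := by rw [hl2]; ring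
          _ ≤ 4 * ((I.card * (4 * (C3 * J * X / l ^ (2 * a + 2)))) * l ^ (2 * a + 2)) := by gcongr
          _ = 16 * I.card * (C3 * J * X / l ^ (2 * a + 2) * l ^ (2 * a + 2)) := by ring
          _ = _ := by
              rw [div_mul_cancel₀ _ (by positivity)]
              ring
      have h4 : (c2 / 2) ^ 2 / (16 * C3) * (X / J) ≤ I.card := by
        rw [div_mul_div_comm, div_le_iff₀ (by positivity)]
        have h5 : ((c2 / 2) ^ 2 * X) * X ≤ (I.card * (16 * C3 * J)) * X := by
          calc ((c2 / 2) ^ 2 * X) * X = (c2 / 2 * X) ^ 2 := by ring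
            _ ≤ I.card * (16 * C3 * J * X) := h3
            _ = _ := by ring
        exact le_of_mul_le_mul_right h5 hX0
      refine le_trans ?_ h4
      apply mul_le_mul_of_nonneg_right (min_le_left _ _) (by positivity)
    · have h1 : ((Q.card : ℝ) / 2) ^ 2 ≤ I.card * (2 * Q.card) := by
        refine hbig.trans ?_
        apply mul_le_mul_of_nonneg_left _ hI0
        linarith
      have h2 : (Q.card : ℝ) ≤ 8 * I.card := by
        have h3 : (Q.card : ℝ) * Q.card ≤ (8 * I.card) * Q.card := by nlinarith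
        exact le_of_mul_le_mul_right h3 hQpos
      have h3 : c2 / 2 / 8 * (X / J) ≤ I.card := by
        have h4 : l ^ (a + 1) ≤ J := by
          refine le_trans ?_ hJge
          exact pow_le_pow_right₀ hl1 (by omega)
        have h5 : c2 / 2 * X ≤ 8 * I.card * J := by
          refine hQcard.trans ?_
          apply mul_le_mul h2 h4 (by positivity) (by positivity)
        rw [mul_div_assoc', div_le_iff₀ hJr0]
        linarith
      refine le_trans ?_ h3
      apply mul_le_mul_of_nonneg_right (min_le_right _ _) (by positivity)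
  have hIG : I ⊆ G a X J := by
    intro i hi
    rw [hI, mem_filter] at hi
    have h1 : 0 < (win J Q i).card := by
      have : (0 : ℝ) < (win J Q i).card := lt_of_lt_of_le one_pos hi.2
      exact_mod_cast this
    obtain ⟨q, hq⟩ := card_pos.1 h1
    unfold win at hq
    rw [mem_filter] at hq
    rw [mem_G]
    exact ⟨q, mem_range.1 (hQX hq.1), hS2 q hq.1, hq.2⟩
  exact hIc.trans (by exact_mod_cast card_le_card hIG)

/-- longer windows -/
lemma longer (a X J J' : ℕ) (hJ : 1 ≤ J) (hJJ : J ≤ J') :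
    ((G a X J).card : ℝ) * J ≤ 3 * J' * (G a X J').card := by
  classical
  have hsub : G a X J ⊆ (G a X J').biUnion (fun i => Icc (J' * i / J) (J' * i / J + (J' / J + 1))) := by
    intro g hg
    obtain ⟨q, h1, h2, h3⟩ := mem_G.1 hg
    rw [mem_biUnion]
    refine ⟨q / J', mem_G.2 ⟨q, h1, h2, rfl⟩, ?_⟩
    rw [mem_Icc]
    have e1 := Nat.div_add_mod q J'
    have e2 := Nat.mod_lt q (by omega : J' > 0)
    constructor
    · rw [← h3]
      apply Nat.div_le_div_right
      omega
    · rw [← h3]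
      have h4 : q ≤ J' * (q / J') + J' := by omega
      calc q / J ≤ (J' * (q / J') + J') / J := Nat.div_le_div_right h4
        _ ≤ J' * (q / J') / J + (J' / J + 1) := by
            rw [Nat.add_div (by omega : 0 < J)]
            split_ifs <;> omega
  have h1 : (G a X J).card ≤ (G a X J').card * (J' / J + 2) := by
    refine (card_le_card hsub).trans (card_biUnion_le.trans ?_)
    rw [← smul_eq_mul]
    refine sum_le_card_nsmul _ _ _ fun i _ => ?_
    rw [Nat.card_Icc]
    generalize J' * i / J = t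
    generalize J' / J = u
    omega
  have h2 : (J' / J + 2) * J ≤ 3 * J' := by
    have := Nat.div_mul_le_self J' J
    nlinarith
  have h3 : (G a X J).card * J ≤ 3 * J' * (G a X J').card := by
    calc (G a X J).card * J ≤ ((G a X J').card * (J' / J + 2)) * J := Nat.mul_le_mul_right _ h1
      _ = (G a X J').card * ((J' / J + 2) * J) := by ring
      _ ≤ (G a X J').card * (3 * J') := Nat.mul_le_mul_left _ h2
      _ = _ := by ring
  exact_mod_cast h3

end Pool.Agent.NH85.IP
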